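import Mathlib

/-!
# Fixed-point-free automorphisms of compact Lie algebras of matrices

`core`: let `M` be a space of complex matrices, closed under the bracket and the conjugate transpose,
and `g` a unitary matrix with `g M g⁻¹ = M`. If all elements of `M` which commute with `g` are central
in `M`, then `M` is commutative.
-/

set_option autoImplicit false

open Matrix

namespace Pool.Agent.K4H33.TIG

/-- the bracket -/
def br {n : Type} [Fintype n] (x y : Matrix n n ℂ) : Matrix n n ℂ := x * y - y * x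

section number

/-- an elementary lemma on greatest common divisors -/
lemma exists_coprime_add (n l u : ℕ) (hn : 0 < n) (h : Nat.gcd (Nat.gcd l u) n = 1) :
    ∃ k : ℕ, Nat.Coprime (u + k * l) n := by
  classical
  let k := ∏ p ∈ n.primeFactors.filter (fun p => ¬ p ∣ u), p
  refine ⟨k, ?_⟩
  rw [Nat.coprime_iff_gcd_eq_one]
  by_contra hne
  obtain ⟨p, hp, hpd⟩ := Nat.exists_prime_and_dvd hne
  have hpn : p ∣ n := hpd.trans (Nat.gcd_dvd_right _ _)
  have hps : p ∣ u + k * l := hpd.trans (Nat.gcd_dvd_left _ _)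
  by_cases hpu : p ∣ u
  · have h1 : p ∣ k * l := (Nat.dvd_add_right hpu).1 hps
    rcases (Nat.Prime.dvd_mul hp).1 h1 with h2 | h2
    · obtain ⟨q, hq, hpq⟩ := (Prime.dvd_finsetProd_iff hp.prime _).1 h2
      rw [Finset.mem_filter, Nat.mem_primeFactors] at hq
      have : p = q := (Nat.prime_dvd_prime_iff_eq hp hq.1.1).1 hpq
      exact hq.2 (this ▸ hpu)
    · have h3 : p ∣ Nat.gcd (Nat.gcd l u) n := Nat.dvd_gcd (Nat.dvd_gcd h2 hpu) hpn
      rw [h] at h3
      exact hp.one_lt.ne' (Nat.dvd_one.1 h3)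
  · have h1 : p ∣ k := Finset.dvd_prod_of_mem _ (by
      rw [Finset.mem_filter, Nat.mem_primeFactors]
      exact ⟨⟨hp, hpn, hn.ne'⟩, hpu⟩)
    exact hpu ((Nat.dvd_add_left (h1.mul_right l)).1 hps)

/-- for two roots of unity `lam`, `mu`, some `lam ^ k * mu` generates a group containing `lam` -/
lemma exists_pow_mul {lam mu : ℂ} {a b : ℕ} (ha : 0 < a) (hb : 0 < b) (hlam : lam ^ a = 1)
    (hmu : mu ^ b = 1) : ∃ k j : ℕ, (lam ^ k * mu) ^ j * lam = 1 := by
  set n := a * b with hn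
  have hn0 : 0 < n := Nat.mul_pos ha hb
  have hn1 : n ≠ 0 := hn0.ne'
  have : NeZero n := ⟨hn1⟩
  have hζ : IsPrimitiveRoot (Complex.exp (2 * Real.pi * Complex.I / n)) n :=
    Complex.isPrimitiveRoot_exp n hn1
  set ζ := Complex.exp (2 * Real.pi * Complex.I / n) with hζdef
  have h1 : lam ^ n = 1 := by rw [hn, pow_mul, hlam, one_pow]
  have h2 : mu ^ n = 1 := by rw [hn, mul_comm, pow_mul, hmu, one_pow]
  obtain ⟨l, -, rfl⟩ := hζ.eq_pow_of_pow_eq_one h1
  obtain ⟨u, -, rfl⟩ := hζ.eq_pow_of_pow_eq_one h2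
  set e := Nat.gcd (Nat.gcd l u) n with he
  have he0 : 0 < e := Nat.gcd_pos_of_pos_right _ hn0
  have hen : e ∣ n := Nat.gcd_dvd_right _ _
  have hel : e ∣ l := (Nat.gcd_dvd_left _ _).trans (Nat.gcd_dvd_left _ _)
  have heu : e ∣ u := (Nat.gcd_dvd_left _ _).trans (Nat.gcd_dvd_right _ _)
  obtain ⟨n', hn'⟩ := hen
  obtain ⟨l', hl'⟩ := hel
  obtain ⟨u', hu'⟩ := heu
  have hn'0 : 0 < n' := by
    rcases Nat.eq_zero_or_pos n' with h | h
    · rw [h, mul_zero] at hn'; omega
    · exact h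
  have hg : Nat.gcd (Nat.gcd l' u') n' = 1 := by
    have h3 : Nat.gcd (Nat.gcd (e * l') (e * u')) (e * n') = e * 1 := by
      rw [← hl', ← hu', ← hn', ← he, mul_one]
    rw [Nat.gcd_mul_left, Nat.gcd_mul_left] at h3
    exact Nat.eq_of_mul_eq_mul_left he0 h3
  obtain ⟨k, hk⟩ := exists_coprime_add n' l' u' hn'0 hg
  -- solve `(u' + k l') j ≡ -l'` modulo `n'`
  obtain ⟨j, hj⟩ : ∃ j : ℕ, n' ∣ (u' + k * l') * j + l' := by
    have : NeZero n' := ⟨hn'0.ne'⟩
    let w : (ZMod n')ˣ := ZMod.unitOfCoprime _ hk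
    refine ⟨(-(w⁻¹ : (ZMod n')ˣ).val * (l' : ZMod n')).val, ?_⟩
    rw [← ZMod.natCast_eq_zero_iff]
    have hw : ((u' + k * l' : ℕ) : ZMod n') = (w : ZMod n') := (ZMod.coe_unitOfCoprime _ hk).symm
    rw [Nat.cast_add, Nat.cast_mul, hw, ZMod.natCast_val, ZMod.cast_id', id_eq]
    have hw2 : (w : ZMod n') * (w⁻¹ : (ZMod n')ˣ).val = 1 := Units.mul_inv w
    linear_combination (-(l' : ZMod n')) * hw2
  refine ⟨k, j, ?_⟩
  have h4 : (ζ ^ l) ^ k * ζ ^ u = ζ ^ (u + k * l) := by
    rw [← pow_mul, ← pow_add]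
    congr 1
    ring
  rw [h4, ← pow_mul, ← pow_add]
  rw [hζ.pow_eq_one_iff_dvd]
  have h5 : (u + k * l) * j + l = e * ((u' + k * l') * j + l') := by
    rw [hl', hu']
    ring
  rw [h5, hn']
  exact Nat.mul_dvd_mul_left e hj

end number

section matrix

variable {n : Type} [Fintype n]

open scoped ComplexOrder in
lemma trace_star_mul_self {x : Matrix n n ℂ} (h : (xᴴ * x).trace = 0) : x = 0 :=
  Matrix.trace_conjTranspose_mul_self_eq_zero_iff.1 h

/-- Fuglede's theorem for matrices -/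
lemma fuglede {x z : Matrix n n ℂ} (hx : x * xᴴ = xᴴ * x) (hz : x * z = z * x) :
    xᴴ * z = z * xᴴ := by
  have h : ((xᴴ * z - z * xᴴ)ᴴ * (xᴴ * z - z * xᴴ)).trace = 0 := by
    have h1 : ((xᴴ * z - z * xᴴ)ᴴ * (xᴴ * z - z * xᴴ)).trace =
        ((x * z - z * x)ᴴ * (x * z - z * x)).trace := by
      simp only [conjTranspose_sub, conjTranspose_mul, conjTranspose_conjTranspose, Matrix.sub_mul,
        Matrix.mul_sub, Matrix.trace_sub]
      have e1 : (zᴴ * x * (xᴴ * z)).trace = (zᴴ * xᴴ * (x * z)).trace := by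
        rw [show zᴴ * x * (xᴴ * z) = zᴴ * (x * xᴴ) * z by simp only [Matrix.mul_assoc],
          show zᴴ * xᴴ * (x * z) = zᴴ * (xᴴ * x) * z by simp only [Matrix.mul_assoc], hx]
      have e2 : (x * zᴴ * (z * xᴴ)).trace = (xᴴ * zᴴ * (z * x)).trace := by
        rw [Matrix.trace_mul_comm, Matrix.trace_mul_comm (xᴴ * zᴴ)]
        rw [show z * xᴴ * (x * zᴴ) = z * (xᴴ * x) * zᴴ by simp only [Matrix.mul_assoc],
          show z * x * (xᴴ * zᴴ) = z * (x * xᴴ) * zᴴ by simp only [Matrix.mul_assoc], hx]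
      have e3 : (zᴴ * x * (z * xᴴ)).trace = (xᴴ * zᴴ * (x * z)).trace := by
        rw [← Matrix.mul_assoc, Matrix.trace_mul_comm]
        simp only [Matrix.mul_assoc]
      have e4 : (x * zᴴ * (xᴴ * z)).trace = (zᴴ * xᴴ * (z * x)).trace := by
        rw [Matrix.mul_assoc x, Matrix.trace_mul_comm x]
        simp only [Matrix.mul_assoc]
      rw [e1, e2, e3, e4]
      ring
    rw [h1, hz, sub_self, Matrix.mul_zero, Matrix.trace_zero]
  exact sub_eq_zero.1 (trace_star_mul_self h)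

/-- the bracket with a normal matrix has no generalized kernel -/
lemma br_br {x y : Matrix n n ℂ} (hx : x * xᴴ = xᴴ * x) (h : br x (br x y) = 0) : br x y = 0 := by
  have h1 : x * br x y = br x y * x := sub_eq_zero.1 h
  have h2 := fuglede hx h1
  apply trace_star_mul_self
  have h3 : ((br x y)ᴴ * br x y).trace = (((br x y)ᴴ * x - x * (br x y)ᴴ) * y).trace := by
    conv_lhs => rw [show (br x y)ᴴ * br x y = (br x y)ᴴ * (x * y - y * x) from rfl]
    rw [Matrix.mul_sub, Matrix.sub_mul, Matrix.trace_sub, Matrix.trace_sub]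
    congr 1
    · rw [Matrix.mul_assoc]
    · rw [← Matrix.mul_assoc, Matrix.trace_mul_comm, Matrix.mul_assoc]
  have h4 : (br x y)ᴴ * x = x * (br x y)ᴴ := by
    have := congrArg conjTranspose h2
    rw [conjTranspose_mul, conjTranspose_mul, conjTranspose_conjTranspose] at this
    exact this
  rw [h3, h4, sub_self, Matrix.zero_mul, Matrix.trace_zero]

/-- iterated bracket -/
def adp (x : Matrix n n ℂ) (k : ℕ) (y : Matrix n n ℂ) : Matrix n n ℂ := (br x)^[k] y

lemma adp_succ (x y : Matrix n n ℂ) (k : ℕ) : adp x (k + 1) y = br x (adp x k y) :=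
  Function.iterate_succ_apply' _ _ _

lemma adp_ne_zero {x y : Matrix n n ℂ} (hx : x * xᴴ = xᴴ * x) (h : br x y ≠ 0) (k : ℕ) :
    adp x (k + 1) y ≠ 0 := by
  induction k with
  | zero => exact h
  | succ k ih =>
    intro h1
    rw [adp_succ, adp_succ] at h1
    rw [adp_succ] at ih
    exact ih (br_br hx h1)

lemma adp_ne_zero' {x y : Matrix n n ℂ} (hx : x * xᴴ = xᴴ * x) (h : br x y ≠ 0) (k : ℕ) :
    adp x k y ≠ 0 := by
  cases k with
  | zero =>
    rintro h1
    apply h
    have : y = 0 := h1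
    rw [this]
    unfold br
    rw [Matrix.mul_zero, Matrix.zero_mul, sub_zero]
  | succ k => exact adp_ne_zero hx h k

end matrix

section core

variable {n : Type} [Fintype n] [DecidableEq n]

lemma conj_br {g x y : Matrix n n ℂ} (hg : gᴴ * g = 1) {lam mu : ℂ} (hx : g * x * gᴴ = lam • x)
    (hy : g * y * gᴴ = mu • y) : g * br x y * gᴴ = (lam * mu) • br x y := by
  have h1 : g * (x * y) * gᴴ = (lam * mu) • (x * y) := by
    calc g * (x * y) * gᴴ = (g * x * (gᴴ * g)) * y * gᴴ := by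
          rw [hg, Matrix.mul_one]; simp only [Matrix.mul_assoc]
      _ = (g * x * gᴴ) * (g * y * gᴴ) := by simp only [Matrix.mul_assoc]
      _ = _ := by rw [hx, hy, smul_mul_smul_comm]
  have h2 : g * (y * x) * gᴴ = (lam * mu) • (y * x) := by
    calc g * (y * x) * gᴴ = (g * y * (gᴴ * g)) * x * gᴴ := by
          rw [hg, Matrix.mul_one]; simp only [Matrix.mul_assoc]
      _ = (g * y * gᴴ) * (g * x * gᴴ) := by simp only [Matrix.mul_assoc]
      _ = _ := by rw [hx, hy, smul_mul_smul_comm, mul_comm mu lam]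
  unfold br
  rw [Matrix.mul_sub, Matrix.sub_mul, h1, h2, smul_sub]

lemma conj_adp {g x y : Matrix n n ℂ} (hg : gᴴ * g = 1) {lam mu : ℂ} (hx : g * x * gᴴ = lam • x)
    (hy : g * y * gᴴ = mu • y) (k : ℕ) : g * adp x k y * gᴴ = (lam ^ k * mu) • adp x k y := by
  induction k with
  | zero =>
    rw [pow_zero, one_mul]
    exact hy
  | succ k ih =>
    rw [adp_succ, conj_br hg hx ih]
    congr 1
    ring

/-- eigenvalues have absolute value one -/
lemma eigen_unit {g x : Matrix n n ℂ} (hg : gᴴ * g = 1) {lam : ℂ} (hx : g * x * gᴴ = lam • x)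
    (hx0 : x ≠ 0) : star lam * lam = 1 := by
  have h1 : ((g * x * gᴴ)ᴴ * (g * x * gᴴ)).trace = (xᴴ * x).trace := by
    rw [conjTranspose_mul, conjTranspose_mul, conjTranspose_conjTranspose]
    calc (g * (xᴴ * gᴴ) * (g * x * gᴴ)).trace = (g * (xᴴ * (gᴴ * g) * x * gᴴ)).trace := by
          simp only [Matrix.mul_assoc]
      _ = (xᴴ * x * (gᴴ * g)).trace := by
          rw [Matrix.trace_mul_comm, hg, Matrix.mul_one, Matrix.mul_one, Matrix.mul_assoc (xᴴ * x), hg,
            Matrix.mul_one]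
      _ = _ := by rw [hg, Matrix.mul_one]
  rw [hx, conjTranspose_smul, smul_mul_smul_comm, Matrix.trace_smul, smul_eq_mul] at h1
  have h2 : (xᴴ * x).trace ≠ 0 := fun h => hx0 (trace_star_mul_self h)
  exact mul_right_cancel₀ h2 (h1.trans (one_mul _).symm)

variable {g : Matrix n n ℂ} {M : Submodule ℂ (Matrix n n ℂ)}

/-- the data: `M` is a `*`-closed Lie algebra, stable under conjugation with the unitary matrix `g` -/
structure Dat (g : Matrix n n ℂ) (M : Submodule ℂ (Matrix n n ℂ)) : Prop where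
  hg : gᴴ * g = 1
  hg' : g * gᴴ = 1
  star : ∀ x ∈ M, xᴴ ∈ M
  cl : ∀ x ∈ M, ∀ y ∈ M, br x y ∈ M
  stab : ∀ x ∈ M, g * x * gᴴ ∈ M
  fix : ∀ x ∈ M, g * x * gᴴ = x → ∀ y ∈ M, br x y = 0

/-- eigenvectors are normal matrices -/
lemma Dat.normal (D : Dat g M) {x : Matrix n n ℂ} (hx : x ∈ M) {lam : ℂ}
    (hl : g * x * gᴴ = lam • x) : x * xᴴ = xᴴ * x := by
  by_cases hx0 : x = 0
  · rw [hx0]; simp
  have h1 := eigen_unit D.hg hl hx0
  have hl' : g * xᴴ * gᴴ = (Star.star lam) • xᴴ := by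
    have := congrArg conjTranspose hl
    rw [conjTranspose_mul, conjTranspose_mul, conjTranspose_conjTranspose, conjTranspose_smul,
      ← Matrix.mul_assoc] at this
    exact this
  have h2 : g * br x xᴴ * gᴴ = br x xᴴ := by
    have := conj_br D.hg hl hl'
    rwa [mul_comm lam, h1, one_smul] at this
  have h3 := D.fix _ (D.cl _ hx _ (D.star _ hx)) h2 _ (D.star _ hx)
  have h4 : (br x xᴴ)ᴴ = br x xᴴ := by
    unfold br
    simp
  have h5 : br x xᴴ = 0 := by
    apply trace_star_mul_self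
    rw [h4]
    have h6 : (br x xᴴ * br x xᴴ).trace = ((xᴴ * br x xᴴ - br x xᴴ * xᴴ) * x).trace := by
      conv_lhs => rw [show br x xᴴ * br x xᴴ = br x xᴴ * (x * xᴴ - xᴴ * x) from rfl]
      rw [Matrix.mul_sub, Matrix.sub_mul, Matrix.trace_sub, Matrix.trace_sub]
      congr 1
      · rw [← Matrix.mul_assoc, Matrix.trace_mul_comm, Matrix.mul_assoc]
      · rw [Matrix.mul_assoc]
    rw [h6, ← sub_eq_zero.1 h3, sub_self, Matrix.zero_mul, Matrix.trace_zero]
  exact sub_eq_zero.1 h5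

lemma Dat.adp_mem (D : Dat g M) {x y : Matrix n n ℂ} (hx : x ∈ M) (hy : y ∈ M) (k : ℕ) :
    adp x k y ∈ M := by
  induction k with
  | zero => exact hy
  | succ k ih => rw [adp_succ]; exact D.cl _ hx _ ih

/-- conjugation with `g` as an endomorphism of `M` -/
def Dat.T (D : Dat g M) : Module.End ℂ M where
  toFun x := ⟨g * x * gᴴ, D.stab _ x.2⟩
  map_add' x y := by
    apply Subtype.ext
    show g * ((x : Matrix n n ℂ) + y) * gᴴ = g * x * gᴴ + g * y * gᴴ
    rw [Matrix.mul_add, Matrix.add_mul]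
  map_smul' c x := by
    apply Subtype.ext
    show g * (c • (x : Matrix n n ℂ)) * gᴴ = c • (g * x * gᴴ)
    rw [Matrix.mul_smul, Matrix.smul_mul]

lemma Dat.T_apply (D : Dat g M) (x : M) : ((D.T x : M) : Matrix n n ℂ) = g * x * gᴴ := rfl

lemma Dat.hasEigen (D : Dat g M) {x : Matrix n n ℂ} (hx : x ∈ M) (hx0 : x ≠ 0) {lam : ℂ}
    (hl : g * x * gᴴ = lam • x) : D.T.HasEigenvalue lam := by
  apply Module.End.hasEigenvalue_of_hasEigenvector (x := ⟨x, hx⟩)
  refine ⟨Module.End.mem_eigenspace_iff.2 (Subtype.ext hl), ?_⟩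
  intro h
  exact hx0 (congrArg Subtype.val h)

/-- if `[x, y] ≠ 0` then the eigenvalue of `x` is a root of unity -/
lemma Dat.root (D : Dat g M) {x y : Matrix n n ℂ} (hx : x ∈ M) (hy : y ∈ M) {lam mu : ℂ}
    (hl : g * x * gᴴ = lam • x) (hm : g * y * gᴴ = mu • y) (h : br x y ≠ 0) :
    ∃ a : ℕ, 0 < a ∧ lam ^ a = 1 := by
  have hn := D.normal hx hl
  have h1 : ∀ k : ℕ, D.T.HasEigenvalue (lam ^ k * mu) := fun k =>
    D.hasEigen (D.adp_mem hx hy k) (adp_ne_zero' hn h k) (conj_adp D.hg hl hm k)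
  have h2 : Set.Finite {c : ℂ | D.T.HasEigenvalue c} := Module.End.finite_hasEigenvalue D.T
  obtain ⟨k, l, hkl, he⟩ : ∃ k l : ℕ, k < l ∧ lam ^ k * mu = lam ^ l * mu := by
    have h3 : ¬ Function.Injective (fun k : ℕ => lam ^ k * mu) := by
      intro hinj
      exact (Set.infinite_range_of_injective hinj) (h2.subset (by
        rintro _ ⟨k, rfl⟩
        exact h1 k))
    unfold Function.Injective at h3
    push Not at h3
    obtain ⟨a, b, hab, hne⟩ := h3
    rcases lt_or_gt_of_ne hne with h4 | h4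
    · exact ⟨a, b, h4, hab⟩
    · exact ⟨b, a, h4, hab.symm⟩
  have hx0 : x ≠ 0 := by
    rintro rfl
    apply h
    unfold br
    simp
  have hy0 : y ≠ 0 := by
    rintro rfl
    apply h
    unfold br
    simp
  have hl0 : lam ≠ 0 := by
    rintro rfl
    have := eigen_unit D.hg hl hx0
    simp at this
  have hm0 : mu ≠ 0 := by
    rintro rfl
    have := eigen_unit D.hg hm hy0
    simp at this
  refine ⟨l - k, by omega, ?_⟩
  have h4 : lam ^ k * mu * lam ^ (l - k) = lam ^ k * mu * 1 := by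
    rw [mul_one, mul_right_comm, ← pow_add, show k + (l - k) = l by omega, ← he]
  exact mul_left_cancel₀ (mul_ne_zero (pow_ne_zero _ hl0) hm0) h4

omit [DecidableEq n] in
lemma br_anti (x y : Matrix n n ℂ) : br x y = - br y x := by
  unfold br
  abel

/-- eigenvectors commute -/
lemma Dat.eig_comm (D : Dat g M) {x y : Matrix n n ℂ} (hx : x ∈ M) (hy : y ∈ M) {lam mu : ℂ}
    (hl : g * x * gᴴ = lam • x) (hm : g * y * gᴴ = mu • y) : br x y = 0 := by
  by_contra h
  have h' : br y x ≠ 0 := by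
    intro h1
    rw [br_anti, h1, neg_zero] at h
    exact h rfl
  obtain ⟨a, ha, hla⟩ := D.root hx hy hl hm h
  obtain ⟨b, hb, hmb⟩ := D.root hy hx hm hl h'
  obtain ⟨k, j, hkj⟩ := exists_pow_mul ha hb hla hmb
  have hn := D.normal hx hl
  set z := adp x k y with hz
  have hzM : z ∈ M := D.adp_mem hx hy k
  have hzl : g * z * gᴴ = (lam ^ k * mu) • z := conj_adp D.hg hl hm k
  have hxz : br x z ≠ 0 := by
    have := adp_ne_zero hn h k
    rwa [adp_succ] at this
  have hzx : br z x ≠ 0 := by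
    intro h1
    rw [br_anti, h1, neg_zero] at hxz
    exact hxz rfl
  have hnz := D.normal hzM hzl
  have h1 := adp_ne_zero hnz hzx j
  have h2 : g * adp z j x * gᴴ = adp z j x := by
    rw [conj_adp D.hg hzl hl j, hkj, one_smul]
  have h3 := D.fix _ (D.adp_mem hzM hx j) h2 z hzM
  rw [adp_succ, br_anti, h3, neg_zero] at h1
  exact h1 rfl

/-- generalized eigenvectors are eigenvectors -/
lemma Dat.gen (D : Dat g M) (lam : ℂ) (x : M) (h : (D.T - lam • (1 : Module.End ℂ M)) ((D.T - lam • 1) x) = 0) :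
    (D.T - lam • (1 : Module.End ℂ M)) x = 0 := by
  set w := (D.T - lam • (1 : Module.End ℂ M)) x with hw
  have hw1 : g * (w : Matrix n n ℂ) * gᴴ = lam • (w : Matrix n n ℂ) := by
    have := congrArg Subtype.val (sub_eq_zero.1 h)
    exact this
  have hw2 : (w : Matrix n n ℂ) = g * (x : Matrix n n ℂ) * gᴴ - lam • (x : Matrix n n ℂ) := rfl
  by_contra hne
  have hw0 : (w : Matrix n n ℂ) ≠ 0 := fun h => hne (Subtype.ext h)
  have h1 := eigen_unit D.hg hw1 hw0
  apply hw0
  apply trace_star_mul_self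
  conv_lhs =>
    enter [1, 2]
    rw [hw2]
  rw [Matrix.mul_sub, Matrix.trace_sub, Matrix.mul_smul, Matrix.trace_smul]
  have h2 : ((w : Matrix n n ℂ)ᴴ * (g * (x : Matrix n n ℂ) * gᴴ)).trace =
      lam * ((w : Matrix n n ℂ)ᴴ * (x : Matrix n n ℂ)).trace := by
    have h3 : gᴴ * (w : Matrix n n ℂ)ᴴ * g = lam • (w : Matrix n n ℂ)ᴴ := by
      have h4 : g * (w : Matrix n n ℂ)ᴴ * gᴴ = (Star.star lam) • (w : Matrix n n ℂ)ᴴ := by
        have := congrArg conjTranspose hw1
        rw [conjTranspose_mul, conjTranspose_mul, conjTranspose_conjTranspose, conjTranspose_smul,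
          ← Matrix.mul_assoc] at this
        exact this
      have h5 : gᴴ * (g * (w : Matrix n n ℂ)ᴴ * gᴴ) * g = (w : Matrix n n ℂ)ᴴ := by
        calc gᴴ * (g * (w : Matrix n n ℂ)ᴴ * gᴴ) * g = (gᴴ * g) * (w : Matrix n n ℂ)ᴴ * (gᴴ * g) := by
              simp only [Matrix.mul_assoc]
          _ = _ := by rw [D.hg, Matrix.one_mul, Matrix.mul_one]
      rw [h4, Matrix.mul_smul, Matrix.smul_mul] at h5
      rw [← h5, smul_smul, mul_comm lam, h1, one_smul]
      rw [h5]
    rw [show (w : Matrix n n ℂ)ᴴ * (g * (x : Matrix n n ℂ) * gᴴ) =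
      ((w : Matrix n n ℂ)ᴴ * g * (x : Matrix n n ℂ)) * gᴴ by simp only [Matrix.mul_assoc],
      Matrix.trace_mul_comm, show gᴴ * ((w : Matrix n n ℂ)ᴴ * g * (x : Matrix n n ℂ)) =
        (gᴴ * (w : Matrix n n ℂ)ᴴ * g) * (x : Matrix n n ℂ) by simp only [Matrix.mul_assoc], h3,
      Matrix.smul_mul, Matrix.trace_smul, smul_eq_mul]
  rw [h2, smul_eq_mul, sub_self]

lemma Dat.eig_of_gen (D : Dat g M) (lam : ℂ) (x : M) (h : x ∈ D.T.maxGenEigenspace lam) :
    g * (x : Matrix n n ℂ) * gᴴ = lam • (x : Matrix n n ℂ) := by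
  obtain ⟨k, hk⟩ := (Module.End.mem_maxGenEigenspace _ _ _).1 h
  have key : ∀ k : ℕ, ((D.T - lam • (1 : Module.End ℂ M)) ^ k) x = 0 →
      (D.T - lam • (1 : Module.End ℂ M)) x = 0 := by
    intro k
    induction k with
    | zero =>
      intro h1
      have : x = 0 := by simpa using h1
      rw [this, map_zero]
    | succ k ih =>
      intro h1
      cases k with
      | zero => simpa using h1
      | succ k =>
        apply ih
        rw [pow_succ', pow_succ'] at h1
        rw [pow_succ']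
        exact D.gen lam _ h1
  have h2 := key k hk
  exact congrArg Subtype.val (sub_eq_zero.1 h2)

/-- the main theorem of this file -/
theorem Dat.comm (D : Dat g M) {x y : Matrix n n ℂ} (hx : x ∈ M) (hy : y ∈ M) :
    br x y = 0 := by
  have htop : ∀ z : M, z ∈ ⨆ c : ℂ, D.T.maxGenEigenspace c := by
    intro z
    rw [Module.End.iSup_maxGenEigenspace_eq_top]
    trivial
  have h1 : ∀ y : M, ∀ (x : M) (lam : ℂ), g * (x : Matrix n n ℂ) * gᴴ = lam • (x : Matrix n n ℂ) →
      br (x : Matrix n n ℂ) y = 0 := by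
    intro y x lam hl
    refine Submodule.iSup_induction (fun c : ℂ => D.T.maxGenEigenspace c)
      (motive := fun y : M => br (x : Matrix n n ℂ) y = 0) (htop y) ?_ ?_ ?_
    · intro c z hz
      exact D.eig_comm x.2 z.2 hl (D.eig_of_gen c z hz)
    · unfold br
      simp
    · intro a b ha hb
      unfold br at *
      rw [Submodule.coe_add, Matrix.mul_add, Matrix.add_mul]
      rw [show (x : Matrix n n ℂ) * a + x * b - (a * x + b * x) = (x * a - a * x) + (x * b - b * x) by
        abel, ha, hb, add_zero]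
  have h2 : ∀ (x y : M), br (x : Matrix n n ℂ) y = 0 := by
    intro x y
    refine Submodule.iSup_induction (fun c : ℂ => D.T.maxGenEigenspace c)
      (motive := fun x : M => br (x : Matrix n n ℂ) y = 0) (htop x) ?_ ?_ ?_
    · intro c z hz
      exact h1 y z c (D.eig_of_gen c z hz)
    · unfold br
      simp
    · intro a b ha hb
      unfold br at *
      rw [Submodule.coe_add, Matrix.mul_add, Matrix.add_mul]
      rw [show (a : Matrix n n ℂ) * y + b * y - (y * a + y * b) = (a * y - y * a) + (b * y - y * b) by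
        abel, ha, hb, add_zero]
  exact h2 ⟨x, hx⟩ ⟨y, hy⟩

end core

end Pool.Agent.K4H33.TIG
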