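import Pool.Agent.K4H33.TIG.Grp
import Pool.Agent.Y842.CX.Sep

/-!
# Topologically invariably generated compact groups
-/

set_option autoImplicit false

open Matrix Filter Topology
open scoped Matrix.Norms.Frobenius

namespace Pool.Agent.K4H33.TIG

section easy

/-- Jordan: a proper subgroup of a finite group does not meet all conjugacy classes -/
theorem jordan (Q : Type) [Group Q] [Finite Q] (K : Subgroup Q)
    (h : ∀ x : Q, ∃ y : Q, y * x * y⁻¹ ∈ K) : K = ⊤ := by
  classical
  have := Fintype.ofFinite Q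
  have hfix : ∀ g : Q, 1 ≤ Fintype.card (MulAction.fixedBy (Q ⧸ K) g) := by
    intro g
    rw [Nat.succ_le_iff, Fintype.card_pos_iff]
    obtain ⟨y, hy⟩ := h g
    refine ⟨⟨((y⁻¹ : Q) : Q ⧸ K), ?_⟩⟩
    rw [MulAction.mem_fixedBy]
    show ((g * y⁻¹ : Q) : Q ⧸ K) = ((y⁻¹ : Q) : Q ⧸ K)
    rw [eq_comm, QuotientGroup.eq, inv_inv]
    rwa [← mul_assoc]
  have hsub : Subsingleton (MulAction.orbitRel.Quotient Q (Q ⧸ K)) :=
    (MulAction.pretransitive_iff_subsingleton_quotient Q (Q ⧸ K)).1 inferInstance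
  have hsum := MulAction.sum_card_fixedBy_eq_card_orbits_mul_card_group Q (Q ⧸ K)
  have hcard1 : Fintype.card (MulAction.orbitRel.Quotient Q (Q ⧸ K)) ≤ 1 :=
    Fintype.card_le_one_iff_subsingleton.2 hsub
  have hle : ∑ g : Q, Fintype.card (MulAction.fixedBy (Q ⧸ K) g) ≤ ∑ _g : Q, 1 := by
    rw [hsum, Finset.sum_const, Finset.card_univ, smul_eq_mul, mul_one]
    calc _ ≤ 1 * Fintype.card Q := Nat.mul_le_mul_right _ hcard1
      _ = _ := one_mul _
  have heq := (Finset.sum_eq_sum_iff_of_le (fun g _ => hfix g)).1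
    (le_antisymm (Finset.sum_le_sum fun g _ => hfix g) hle) 1 (Finset.mem_univ _)
  have hone : Fintype.card (Q ⧸ K) ≤ 1 := by
    rw [heq]
    refine Fintype.card_le_of_injective (fun x : Q ⧸ K => (⟨x, by
      rw [MulAction.mem_fixedBy, one_smul]⟩ : MulAction.fixedBy (Q ⧸ K) (1 : Q))) ?_
    intro x y hxy
    exact congrArg Subtype.val hxy
  rw [eq_top_iff]
  intro x _
  have h1 : ((x : Q) : Q ⧸ K) = ((1 : Q) : Q ⧸ K) :=
    (Fintype.card_le_one_iff.1 hone) _ _
  have h2 := QuotientGroup.eq.1 h1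
  rw [mul_one] at h2
  exact K.inv_mem_iff.1 h2

/-- the same for subgroups of finite index -/
theorem jordan' (Q : Type) [Group Q] (K : Subgroup Q) [K.FiniteIndex]
    (h : ∀ x : Q, ∃ y : Q, y * x * y⁻¹ ∈ K) : K = ⊤ := by
  have hfin : Finite (Q ⧸ K.normalCore) := Subgroup.finite_quotient_of_finiteIndex
  have h1 : K.map (QuotientGroup.mk' K.normalCore) = ⊤ := by
    refine jordan _ _ ?_
    intro x
    obtain ⟨x, rfl⟩ := QuotientGroup.mk'_surjective K.normalCore x
    obtain ⟨y, hy⟩ := h x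
    exact ⟨QuotientGroup.mk' _ y, ⟨_, hy, by simp⟩⟩
  rw [eq_top_iff]
  intro x _
  have h2 : QuotientGroup.mk' K.normalCore x ∈ K.map (QuotientGroup.mk' K.normalCore) := by
    rw [h1]; trivial
  obtain ⟨k, hk, hkx⟩ := h2
  have h3 : k⁻¹ * x ∈ K.normalCore := QuotientGroup.eq.1 hkx
  have h4 := K.mul_mem hk (K.normalCore_le h3)
  rwa [mul_inv_cancel_left] at h4

variable {G : Type} [Group G] [TopologicalSpace G] [IsTopologicalGroup G] [CompactSpace G]

/-- closed subgroups of profinite groups -/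
theorem profinite_case [TotallyDisconnectedSpace G] (K : Subgroup G)
    (hK : IsClosed (K : Set G)) (h : ∀ x : G, ∃ y : G, y * x * y⁻¹ ∈ K) : K = ⊤ := by
  rw [eq_top_iff]
  intro x _
  have h1 := ProfiniteGrp.closedSubgroup_eq_sInf_open (⟨K, hK⟩ : ClosedSubgroup G)
  have h2 : x ∈ (sInf {N : Subgroup G | IsOpen (N : Set G) ∧
      ((⟨K, hK⟩ : ClosedSubgroup G) : Subgroup G) ≤ N} : Subgroup G) := by
    rw [Subgroup.mem_sInf]
    rintro M ⟨hM, hKM⟩
    have hfi : M.FiniteIndex := by
      have hd : DiscreteTopology (G ⧸ M) := QuotientGroup.discreteTopology hM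
      have hf : Finite (G ⧸ M) := finite_of_compact_of_discrete
      exact Subgroup.finiteIndex_of_finite_quotient
    have h3 : M = ⊤ := jordan' G M (fun x => by
      obtain ⟨y, hy⟩ := h x
      exact ⟨y, hKM hy⟩)
    rw [h3]
    trivial
  rw [← h1] at h2
  exact h2

/-- a closed subgroup of an abelian-by-profinite compact group which meets all conjugacy classes -/
theorem easy_direction [T2Space G] (N : Subgroup G) [hn : N.Normal]
    (hab : ∀ a ∈ N, ∀ b ∈ N, a * b = b * a) (htd : TotallyDisconnectedSpace (G ⧸ N))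
    (hNcl : IsClosed (N : Set G))
    (K : Subgroup G) (hK : IsClosed (K : Set G)) (h : ∀ x : G, ∃ y : G, y * x * y⁻¹ ∈ K) :
    K = ⊤ := by
  have hT2 : T2Space (G ⧸ N) := inferInstance
  have h1 : K.map (QuotientGroup.mk' N) = ⊤ := by
    refine profinite_case _ ?_ ?_
    · have hc : IsCompact (K : Set G) := hK.isCompact
      exact (hc.image (continuous_quotient_mk' : Continuous (QuotientGroup.mk' N))).isClosed
    · intro x
      obtain ⟨x, rfl⟩ := QuotientGroup.mk'_surjective N x
      obtain ⟨y, hy⟩ := h x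
      exact ⟨QuotientGroup.mk' _ y, ⟨_, hy, by simp⟩⟩
  have h2 : ∀ x : G, ∃ k ∈ K, k⁻¹ * x ∈ N := by
    intro x
    have h2 : QuotientGroup.mk' N x ∈ K.map (QuotientGroup.mk' N) := by
      rw [h1]; trivial
    obtain ⟨k, hk, hkx⟩ := h2
    exact ⟨k, hk, QuotientGroup.eq.1 hkx⟩
  have h3 : N ≤ K := by
    intro x hx
    obtain ⟨y, hy⟩ := h x
    obtain ⟨k, hk, hky⟩ := h2 y
    have h4 := hab _ hky _ hx
    have h5 : y * x * y⁻¹ = k * x * k⁻¹ := by
      calc y * x * y⁻¹ = k * (k⁻¹ * y * x) * (k⁻¹ * y)⁻¹ * k⁻¹ := by group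
        _ = k * (x * (k⁻¹ * y)) * (k⁻¹ * y)⁻¹ * k⁻¹ := by rw [h4]
        _ = _ := by group
    rw [h5] at hy
    have h6 := K.mul_mem (K.mul_mem (K.inv_mem hk) hy) hk
    have h7 : k⁻¹ * (k * x * k⁻¹) * k = x := by group
    rwa [h7] at h6
  rw [eq_top_iff]
  intro x _
  obtain ⟨k, hk, hkx⟩ := h2 x
  have h4 := K.mul_mem hk (h3 hkx)
  rwa [mul_inv_cancel_left] at h4

end easy

section hard

open Pool.Agent.W544.EG

variable {N : ℕ}

/-- a closed connected subgroup with commutative Lie algebra is commutative -/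
lemma comm_of_conn {K : Subgroup (unitaryGroup (Fin N) ℂ)}
    (hc : IsClosed (K : Set (unitaryGroup (Fin N) ℂ)))
    (hconn : IsConnected (K : Set (unitaryGroup (Fin N) ℂ)))
    (hab : ∀ x ∈ LieAlg K, ∀ y ∈ LieAlg K, br x y = 0) : ∀ a ∈ K, ∀ b ∈ K, a * b = b * a := by
  obtain ⟨L, hL⟩ := exists_lie hc
  have hG := isG hc hL
  obtain ⟨m, hm⟩ := generate hG (Gs_conn hconn) one_pos
  have hmem : ∀ X ∈ L, X ∈ LieAlg K := by
    intro X hX
    rw [← hL]
    exact hX
  intro a ha b hb
  obtain ⟨l, -, hl, hla⟩ := hm (a : Mat N) ⟨a, ha, rfl⟩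
  obtain ⟨l', -, hl', hlb⟩ := hm (b : Mat N) ⟨b, hb, rfl⟩
  have h1 : Commute (a : Mat N) (b : Mat N) := by
    rw [← hla, ← hlb]
    apply Commute.list_prod_left
    intro x hx
    apply Commute.list_prod_right
    intro y hy
    obtain ⟨X, hX, rfl⟩ := List.mem_map.1 hx
    obtain ⟨Y, hY, rfl⟩ := List.mem_map.1 hy
    have h2 : Commute X Y := sub_eq_zero.1 (hab X (hmem X (hl X hX).1) Y (hmem Y (hl' Y hY).1))
    exact exp_commute (exp_commute h2.symm).symm
  exact Subtype.ext h1

variable {G : Type} [Group G] [TopologicalSpace G] [IsTopologicalGroup G] [CompactSpace G]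
  [T2Space G]

/-- the identity component of a topologically invariably generated compact group is commutative -/
theorem hard_direction (h : ∀ K : Subgroup G, IsClosed (K : Set G) →
    (∀ x : G, ∃ y : G, y * x * y⁻¹ ∈ K) → K = ⊤) :
    ∀ a ∈ Subgroup.connectedComponentOfOne G, ∀ b ∈ Subgroup.connectedComponentOfOne G,
      a * b = b * a := by
  intro a ha b hb
  by_contra hne
  obtain ⟨r, ρ, hρ, hρab⟩ := Pool.Agent.Y842.CX.separated_of_compact G (a * b) (b * a) hne
  have hcl : IsClosed (ρ.range : Set (unitaryGroup (Fin r) ℂ)) := by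
    have := (isCompact_univ (X := G)).image hρ
    rw [Set.image_univ] at this
    exact this.isClosed
  obtain ⟨L, hL⟩ := exists_lie hcl
  by_cases hab : ∀ x ∈ L, ∀ y ∈ L, br x y = 0
  · -- commutative
    set C := Subgroup.connectedComponentOfOne G with hC
    have hCcl : IsClosed (C : Set G) := isClosed_connectedComponent
    have hKcl : IsClosed ((C.map ρ : Subgroup _) : Set (unitaryGroup (Fin r) ℂ)) :=
      (hCcl.isCompact.image hρ).isClosed
    have hCconn : IsConnected (C : Set G) := isConnected_connectedComponent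
    have hKconn : IsConnected ((C.map ρ : Subgroup _) : Set (unitaryGroup (Fin r) ℂ)) :=
      hCconn.image ρ hρ.continuousOn
    have hLK : ∀ X ∈ LieAlg (C.map ρ), X ∈ L := by
      intro X hX
      have h1 : X ∈ LieAlg ρ.range := by
        intro t
        obtain ⟨u, ⟨c, _, hcu⟩, hue⟩ := hX t
        exact ⟨u, ⟨c, hcu⟩, hue⟩
      rw [← hL] at h1
      exact h1
    have h2 := comm_of_conn hKcl hKconn (fun x hx y hy => hab x (hLK x hx) y (hLK y hy))
      (ρ a) ⟨a, ha, rfl⟩ (ρ b) ⟨b, hb, rfl⟩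
    apply hρab
    rw [map_mul, map_mul, h2]
  · obtain ⟨H, hHG, hHcl, hHne, hHm⟩ := exists_proper hcl hL hab
    apply hHne
    have h1 := h (H.comap ρ) (hHcl.preimage hρ) (by
      intro x
      obtain ⟨u, ⟨y, rfl⟩, hy⟩ := hHm (ρ x) ⟨x, rfl⟩
      refine ⟨y, ?_⟩
      rw [Subgroup.mem_comap, map_mul, map_mul, map_inv]
      exact hy)
    apply le_antisymm hHG
    rintro _ ⟨x, rfl⟩
    have h2 : x ∈ H.comap ρ := by rw [h1]; trivial
    exact h2

end hard

/-- the quotient by the identity component is totally disconnected -/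
theorem totallyDisconnected_quotient (G : Type) [Group G] [TopologicalSpace G] [IsTopologicalGroup G]
    [hn : (Subgroup.connectedComponentOfOne G).Normal] :
    TotallyDisconnectedSpace (G ⧸ Subgroup.connectedComponentOfOne G) := by
  set C := Subgroup.connectedComponentOfOne G with hC
  have hcc : ∀ g x : G, x ∈ connectedComponent g ↔ g⁻¹ * x ∈ C := by
    intro g x
    constructor
    · intro hx
      have h1 := Continuous.image_connectedComponent_subset (continuous_const_mul g⁻¹) g
        ⟨x, hx, rfl⟩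
      simp only [inv_mul_cancel] at h1
      exact h1
    · intro hx
      have h1 := Continuous.image_connectedComponent_subset (continuous_const_mul g) (1 : G)
        ⟨g⁻¹ * x, hx, rfl⟩
      simp only [mul_one, mul_inv_cancel_left] at h1
      exact h1
  have hq : IsQuotientMap (QuotientGroup.mk : G → G ⧸ C) := QuotientGroup.isQuotientMap_mk C
  have hfib : ∀ y : G ⧸ C, IsConnected ((QuotientGroup.mk : G → G ⧸ C) ⁻¹' {y}) := by
    intro y
    obtain ⟨g, rfl⟩ := QuotientGroup.mk_surjective y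
    have : (QuotientGroup.mk : G → G ⧸ C) ⁻¹' {(g : G ⧸ C)} = connectedComponent g := by
      ext x
      rw [hcc, Set.mem_preimage, Set.mem_singleton_iff, eq_comm, QuotientGroup.eq]
    rw [this]
    exact isConnected_connectedComponent
  rw [totallyDisconnectedSpace_iff_connectedComponent_singleton]
  intro y
  obtain ⟨g, rfl⟩ := QuotientGroup.mk_surjective y
  have h1 := hq.isCoinducing.image_connectedComponent hfib g
  rw [← h1]
  ext z
  rw [Set.mem_singleton_iff]
  constructor
  · rintro ⟨x, hx, rfl⟩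
    rw [eq_comm, QuotientGroup.eq]
    exact (hcc g x).1 hx
  · rintro rfl
    exact ⟨g, mem_connectedComponent, rfl⟩

end Pool.Agent.K4H33.TIG
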