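import Pool.Agent.K4H33.TIG.Real
import Pool.Agent.W544.EG.Exists

/-!
# Closed subgroups of `U(N)` with non-commutative Lie algebra have proper closed subgroups which meet
all conjugacy classes
-/

set_option autoImplicit false

open Matrix Filter Topology
open scoped Matrix.Norms.Frobenius

namespace Pool.Agent.K4H33.TIG

open Pool.Agent.W544.EG

variable {N : ℕ} {G : Subgroup (unitaryGroup (Fin N) ℂ)}

/-- the Lie algebra is a real vector space -/
lemma exists_lie (hc : IsClosed (G : Set (unitaryGroup (Fin N) ℂ))) :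
    ∃ L : Submodule ℝ (Mat N), (L : Set (Mat N)) = LieAlg G := by
  refine ⟨{ carrier := LieAlg G, add_mem' := ?_, zero_mem' := ?_, smul_mem' := ?_ }, rfl⟩
  · intro X Y hX hY
    exact Pool.Agent.W345.EGT.mem_of_lat (Pool.LatH472.CST1 (Fin N) G hc X
      (Pool.Agent.W345.EGT.mem_lat hX) Y (Pool.Agent.W345.EGT.mem_lat hY)).1
  · intro t
    refine ⟨1, G.one_mem, ?_⟩
    rw [smul_zero]
    have h0 : NormedSpace.exp (0 : Mat N) = 1 := exp_zero' (𝔸 := Mat N)
    rw [h0]
    rfl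
  · intro c X hX t
    obtain ⟨u, hu, hue⟩ := hX (t * c)
    exact ⟨u, hu, by rw [hue, mul_smul]⟩

lemma rl_of_isG {L : Submodule ℝ (Mat N)} (hG : IsG (Gs G) L) : RL L where
  skew := fun _ hx => hG.skew hx
  cl := fun _ hx _ hy => bracket_mem hG (fun _ hg _ hX => hG.conj_mem hg hX) hx hy

/-- Hunt's argument: two elements of the Lie algebra can be conjugated so that they commute -/
lemma hunt {L : Submodule ℝ (Mat N)} (hG : IsG (Gs G) L) {x x' : Mat N} (hx : x ∈ L) (hx' : x' ∈ L) :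
    ∃ u ∈ G, br ((u : Mat N) * x' * (u : Mat N)ᴴ) x = 0 := by
  let ℓ₀ : Mat N →ₗ[ℝ] ℝ :=
    { toFun := fun A => (trace (Aᴴ * x)).re
      map_add' := by
        intro A B
        rw [conjTranspose_add, add_mul, trace_add, Complex.add_re]
      map_smul' := by
        intro r A
        rw [conjTranspose_smul, smul_mul_assoc, trace_smul]
        simp }
  let ℓ : Mat N →L[ℝ] ℝ := LinearMap.toContinuousLinearMap ℓ₀
  have hℓ : ∀ A, ℓ A = (trace (Aᴴ * x)).re := fun A => rfl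
  have hcont : ContinuousOn (fun U : Mat N => ℓ (U * x' * Uᴴ)) (Gs G) := by
    apply Continuous.continuousOn
    refine ℓ.continuous.comp ?_
    exact (continuous_id.mul continuous_const).mul (continuous_star (R := Mat N))
  obtain ⟨U, hU, hmax⟩ := hG.compact.exists_isMaxOn ⟨1, hG.one⟩ hcont
  obtain ⟨u, hu, rfl⟩ := hU
  refine ⟨u, hu, ?_⟩
  have hUG : ((u : unitaryGroup (Fin N) ℂ) : Mat N) ∈ Gs G := ⟨u, hu, rfl⟩
  set U : Mat N := (u : Mat N) with hUdef
  set x'' := U * x' * Uᴴ with hx''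
  have hx''L : x'' ∈ L := hG.conj_mem hUG hx'
  have hRL := rl_of_isG hG
  set Z := br x'' x with hZ
  have hZL : Z ∈ L := hRL.cl _ hx''L _ hx
  have h1 := hasDerivAt_exp_smul Z 0
  have h2 := hasDerivAt_exp_smul (-Z) 0
  rw [zero_smul, exp_zero', one_mul] at h1 h2
  have h3 : HasDerivAt (fun t : ℝ => NormedSpace.exp (t • Z) * x'' * NormedSpace.exp (t • (-Z)))
      (Z * x'' - x'' * Z) 0 := by
    have h4 := (h1.mul_const x'').mul h2
    simp only [zero_smul, exp_zero', one_mul, mul_one] at h4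
    refine h4.congr_deriv ?_
    rw [mul_neg, ← sub_eq_add_neg]
  have h4 : HasDerivAt (fun t : ℝ => ℓ (NormedSpace.exp (t • Z) * x'' * NormedSpace.exp (t • (-Z))))
      (ℓ (br Z x'')) 0 := ℓ.hasFDerivAt.comp_hasDerivAt (0 : ℝ) h3
  have h5 : IsLocalMax (fun t : ℝ => ℓ (NormedSpace.exp (t • Z) * x'' * NormedSpace.exp (t • (-Z)))) 0 := by
    refine Eventually.of_forall fun t => ?_
    have h6 : t • Z ∈ L := L.smul_mem t hZL
    have h7 := hG.mul _ (hG.exp_mem h6) _ hUG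
    have h8 := hmax h7
    have e1 : NormedSpace.exp (t • Z) * U * x' * (NormedSpace.exp (t • Z) * U)ᴴ =
        NormedSpace.exp (t • Z) * x'' * NormedSpace.exp (t • (-Z)) := by
      have h9 : (NormedSpace.exp (t • Z))ᴴ = NormedSpace.exp (t • (-Z)) := by
        have := hG.star_exp h6
        rw [← smul_neg] at this
        exact this
      rw [conjTranspose_mul, h9, hx'']
      simp only [Matrix.mul_assoc]
    have h10 : ℓ (NormedSpace.exp (t • Z) * U * x' * (NormedSpace.exp (t • Z) * U)ᴴ) ≤ ℓ x'' := h8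
    rw [e1] at h10
    have e2 : NormedSpace.exp ((0 : ℝ) • Z) * x'' * NormedSpace.exp ((0 : ℝ) • (-Z)) = x'' := by
      have h0 : NormedSpace.exp (0 : Mat N) = 1 := exp_zero' (𝔸 := Mat N)
      rw [zero_smul, zero_smul, h0, one_mul, mul_one]
    show ℓ _ ≤ ℓ _
    rw [e2]
    exact h10
  have h6 := h5.hasDerivAt_eq_zero h4
  rw [hℓ, trace_br (hRL.skew _ hZL), hRL.skew _ hx''L] at h6
  have h7 : -(-x'' * br Z x).trace = (Zᴴ * Z).trace := by
    have e1 : (x'' * (Z * x)).trace = (Z * (x * x'')).trace := by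
      rw [Matrix.trace_mul_comm, Matrix.mul_assoc]
    have e2 : (x'' * (x * Z)).trace = (Z * (x'' * x)).trace := by
      rw [← Matrix.mul_assoc, Matrix.trace_mul_comm]
    rw [hRL.skew _ hZL, Matrix.neg_mul, Matrix.neg_mul, Matrix.trace_neg, Matrix.trace_neg, neg_neg]
    conv_rhs => rw [show Z * Z = Z * (x'' * x - x * x'') from rfl]
    rw [show br Z x = Z * x - x * Z from rfl, Matrix.mul_sub, Matrix.trace_sub, e1, e2, Matrix.mul_sub,
      Matrix.trace_sub]
    ring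
  rw [h7, ← fro_sq] at h6
  have h8 : ‖Z‖ = 0 := by
    exact pow_eq_zero_iff (two_ne_zero) |>.1 h6
  exact norm_eq_zero.1 h8

/-- a maximal commutative subspace of the Lie algebra -/
structure MaxAb (L T : Submodule ℝ (Mat N)) : Prop where
  le : T ≤ L
  comm : ∀ x ∈ T, ∀ y ∈ T, br x y = 0
  max : ∀ z ∈ L, (∀ x ∈ T, br x z = 0) → z ∈ T

lemma br_jacobi {x y z : Mat N} (h1 : br x y = 0) (h2 : br x z = 0) : br x (br y z) = 0 := by
  have e1 : x * y = y * x := sub_eq_zero.1 h1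
  have e2 : x * z = z * x := sub_eq_zero.1 h2
  unfold br
  rw [Matrix.mul_sub, Matrix.sub_mul, ← Matrix.mul_assoc, e1, Matrix.mul_assoc y, e2, ← Matrix.mul_assoc x,
    e2, Matrix.mul_assoc z x y, e1]
  simp only [Matrix.mul_assoc]
  abel

lemma br_conj {U : Mat N} (hU : Uᴴ * U = 1) (x y : Mat N) :
    br (U * x * Uᴴ) (U * y * Uᴴ) = U * br x y * Uᴴ := by
  have e : ∀ a b : Mat N, U * a * Uᴴ * (U * b * Uᴴ) = U * (a * b) * Uᴴ := by
    intro a b
    calc U * a * Uᴴ * (U * b * Uᴴ) = U * a * (Uᴴ * U) * b * Uᴴ := by simp only [Matrix.mul_assoc]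
      _ = _ := by rw [hU, Matrix.mul_one]; simp only [Matrix.mul_assoc]
  unfold br
  rw [e, e, Matrix.mul_sub, Matrix.sub_mul]

/-- every `g` stabilizes some maximal commutative subspace of the Lie algebra -/
lemma exists_stable {L : Submodule ℝ (Mat N)} (hG : IsG (Gs G) L) {g : Mat N} (hg : g ∈ Gs G) :
    ∃ T : Submodule ℝ (Mat N), MaxAb L T ∧ (∀ x ∈ T, g * x * gᴴ ∈ T) ∧ ∀ x ∈ T, gᴴ * x * g ∈ T := by
  have hRL := rl_of_isG hG
  have hgs : gᴴ * g = 1 := hG.sm g hg
  have hgs' : g * gᴴ = 1 := hG.ms g hg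
  have hgL : ∀ x ∈ L, g * x * gᴴ ∈ L := fun x hx => hG.conj_mem hg hx
  have hgL' : ∀ x ∈ L, gᴴ * x * g ∈ L := by
    intro x hx
    have := hG.conj_mem (hG.st _ hg) hx
    rwa [star_star] at this
  -- fixed points
  let F : Submodule ℝ (Mat N) :=
    { carrier := {x | x ∈ L ∧ g * x * gᴴ = x}
      zero_mem' := ⟨L.zero_mem, by simp⟩
      add_mem' := by
        rintro a b ⟨ha, ha'⟩ ⟨hb, hb'⟩
        exact ⟨L.add_mem ha hb, by rw [Matrix.mul_add, Matrix.add_mul, ha', hb']⟩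
      smul_mem' := by
        rintro c a ⟨ha, ha'⟩
        exact ⟨L.smul_mem c ha, by rw [Matrix.mul_smul, Matrix.smul_mul, ha']⟩ }
  obtain ⟨S, hSF, hSc, hSm⟩ := exists_maxab F
  let T : Submodule ℝ (Mat N) :=
    { carrier := {x | x ∈ L ∧ ∀ s ∈ S, br s x = 0}
      zero_mem' := ⟨L.zero_mem, by intro s _; unfold br; simp⟩
      add_mem' := by
        rintro a b ⟨ha, ha'⟩ ⟨hb, hb'⟩
        refine ⟨L.add_mem ha hb, fun s hs => ?_⟩
        have h1 := ha' s hs
        have h2 := hb' s hs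
        unfold br at *
        rw [Matrix.mul_add, Matrix.add_mul,
          show s * a + s * b - (a * s + b * s) = (s * a - a * s) + (s * b - b * s) by abel, h1, h2,
          add_zero]
      smul_mem' := by
        rintro c a ⟨ha, ha'⟩
        refine ⟨L.smul_mem c ha, fun s hs => ?_⟩
        have h1 := ha' s hs
        unfold br at *
        rw [Matrix.mul_smul, Matrix.smul_mul, ← smul_sub, h1, smul_zero] }
  have hT : ∀ x, x ∈ T ↔ x ∈ L ∧ ∀ s ∈ S, br s x = 0 := fun x => Iff.rfl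
  have hST : S ≤ T := fun s hs => ⟨(hSF hs).1, fun s' hs' => hSc s' hs' s hs⟩
  have hSfix : ∀ s ∈ S, g * s * gᴴ = s := fun s hs => (hSF hs).2
  have hSfix' : ∀ s ∈ S, gᴴ * s * g = s := by
    intro s hs
    calc gᴴ * s * g = gᴴ * (g * s * gᴴ) * g := by rw [hSfix s hs]
      _ = (gᴴ * g) * s * (gᴴ * g) := by simp only [Matrix.mul_assoc]
      _ = s := by rw [hgs, Matrix.one_mul, Matrix.mul_one]
  have hTg : ∀ x ∈ T, g * x * gᴴ ∈ T := by
    intro x hx
    refine ⟨hgL x hx.1, fun s hs => ?_⟩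
    conv_lhs => rw [← hSfix s hs]
    rw [br_conj hgs, hx.2 s hs]
    simp
  have hTg' : ∀ x ∈ T, gᴴ * x * g ∈ T := by
    intro x hx
    refine ⟨hgL' x hx.1, fun s hs => ?_⟩
    conv_lhs => rw [← hSfix' s hs]
    have := br_conj (U := gᴴ) (by rw [conjTranspose_conjTranspose]; exact hgs') s x
    rw [conjTranspose_conjTranspose] at this
    rw [this, hx.2 s hs]
    simp
  have hTRL : RL T :=
    { skew := fun x hx => hRL.skew x hx.1
      cl := fun x hx y hy => ⟨hRL.cl x hx.1 y hy.1, fun s hs => br_jacobi (hx.2 s hs) (hy.2 s hs)⟩ }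
  have hcomm := hTRL.comm_of_fix hgs hgs' hTg (by
    intro x hx hfx y hy
    have hxS : x ∈ S := hSm x ⟨hx.1, hfx⟩ hx.2
    exact hy.2 x hxS)
  refine ⟨T, ⟨fun x hx => hx.1, hcomm, ?_⟩, hTg, hTg'⟩
  intro z hz hzT
  exact ⟨hz, fun s hs => hzT s (hST hs)⟩

/-- two maximal commutative subspaces of the Lie algebra are conjugate -/
lemma exists_conj {L T T' : Submodule ℝ (Mat N)} (hG : IsG (Gs G) L) (hT : MaxAb L T)
    (hT' : MaxAb L T') : ∃ u ∈ G, (∀ x ∈ T', (u : Mat N) * x * (u : Mat N)ᴴ ∈ T) ∧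
      ∀ x ∈ T, (u : Mat N)ᴴ * x * (u : Mat N) ∈ T' := by
  have hRL := rl_of_isG hG
  obtain ⟨x, hx, hxr⟩ := exists_regular T (fun x hx => hRL.skew x (hT.le hx)) hT.comm
  obtain ⟨x', hx', hxr'⟩ := exists_regular T' (fun x hx => hRL.skew x (hT'.le hx)) hT'.comm
  obtain ⟨u, hu, hux⟩ := hunt hG (hT.le hx) (hT'.le hx')
  have hUG : ((u : unitaryGroup (Fin N) ℂ) : Mat N) ∈ Gs G := ⟨u, hu, rfl⟩
  set U : Mat N := (u : Mat N) with hU
  have h1 : Uᴴ * U = 1 := hG.sm U hUG
  have h2 : U * Uᴴ = 1 := hG.ms U hUG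
  have hL1 : ∀ x ∈ L, U * x * Uᴴ ∈ L := fun x hx => hG.conj_mem hUG hx
  have hL2 : ∀ x ∈ L, Uᴴ * x * U ∈ L := by
    intro x hx
    have := hG.conj_mem (hG.st _ hUG) hx
    rwa [star_star] at this
  have hinv : ∀ a : Mat N, Uᴴ * (U * a * Uᴴ) * U = a := by
    intro a
    calc Uᴴ * (U * a * Uᴴ) * U = (Uᴴ * U) * a * (Uᴴ * U) := by simp only [Matrix.mul_assoc]
      _ = a := by rw [h1, Matrix.one_mul, Matrix.mul_one]
  have hinv' : ∀ a : Mat N, U * (Uᴴ * a * U) * Uᴴ = a := by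
    intro a
    calc U * (Uᴴ * a * U) * Uᴴ = (U * Uᴴ) * a * (U * Uᴴ) := by simp only [Matrix.mul_assoc]
      _ = a := by rw [h2, Matrix.one_mul, Matrix.mul_one]
  have hbr' : ∀ a b : Mat N, br (Uᴴ * a * U) (Uᴴ * b * U) = Uᴴ * br a b * U := by
    intro a b
    have := br_conj (U := Uᴴ) (by rw [conjTranspose_conjTranspose]; exact h2) a b
    rwa [conjTranspose_conjTranspose] at this
  -- `U x' Uᴴ ∈ T`
  have h3 : U * x' * Uᴴ ∈ T := hT.max _ (hL1 _ (hT'.le hx')) (hxr _ (br_comm_zero hux))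
  -- `Uᴴ T U ≤ T'`
  have h4 : ∀ y ∈ T, Uᴴ * y * U ∈ T' := by
    intro y hy
    refine hT'.max _ (hL2 _ (hT.le hy)) (hxr' _ ?_)
    have h5 := hT.comm _ h3 _ hy
    have h6 := hbr' (U * x' * Uᴴ) y
    rw [hinv, h5] at h6
    rw [h6]
    simp
  refine ⟨u, hu, ?_, h4⟩
  intro y hy
  refine hT.max _ (hL1 _ (hT'.le hy)) ?_
  intro t ht
  have h5 := hT'.comm _ (h4 t ht) _ hy
  have h6 := br_conj h1 (Uᴴ * t * U) y
  rw [hinv', h5] at h6
  rw [h6]
  simp

/-- a closed subgroup of `U(N)` whose Lie algebra is not commutative has a proper closed subgroup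
which meets all conjugacy classes -/
theorem exists_proper (hc : IsClosed (G : Set (unitaryGroup (Fin N) ℂ))) {L : Submodule ℝ (Mat N)}
    (hL : (L : Set (Mat N)) = LieAlg G) (hna : ¬ ∀ x ∈ L, ∀ y ∈ L, br x y = 0) :
    ∃ H : Subgroup (unitaryGroup (Fin N) ℂ), H ≤ G ∧ IsClosed (H : Set (unitaryGroup (Fin N) ℂ)) ∧
      H ≠ G ∧ ∀ g ∈ G, ∃ u ∈ G, u * g * u⁻¹ ∈ H := by
  have hG := isG hc hL
  have hRL := rl_of_isG hG
  obtain ⟨T, hTL, hTc, hTm⟩ := exists_maxab L
  have hT : MaxAb L T := ⟨hTL, hTc, hTm⟩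
  have hcoe : ∀ u : unitaryGroup (Fin N) ℂ, ((u⁻¹ : unitaryGroup (Fin N) ℂ) : Mat N) = (u : Mat N)ᴴ :=
    fun u => rfl
  have hmul : ∀ u v : unitaryGroup (Fin N) ℂ,
      ((u * v : unitaryGroup (Fin N) ℂ) : Mat N) = (u : Mat N) * (v : Mat N) := fun u v => rfl
  let H : Subgroup (unitaryGroup (Fin N) ℂ) :=
    { carrier := {u | u ∈ G ∧ (∀ x ∈ T, (u : Mat N) * x * (u : Mat N)ᴴ ∈ T) ∧
        ∀ x ∈ T, (u : Mat N)ᴴ * x * (u : Mat N) ∈ T}
      one_mem' := by
        refine ⟨G.one_mem, fun x hx => ?_, fun x hx => ?_⟩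
        · simpa using hx
        · simpa using hx
      mul_mem' := by
        rintro u v ⟨h1, h2, h3⟩ ⟨h4, h5, h6⟩
        refine ⟨G.mul_mem h1 h4, fun x hx => ?_, fun x hx => ?_⟩
        · rw [hmul, conjTranspose_mul]
          have := h2 _ (h5 x hx)
          simpa only [Matrix.mul_assoc] using this
        · rw [hmul, conjTranspose_mul]
          have := h6 _ (h3 x hx)
          simpa only [Matrix.mul_assoc] using this
      inv_mem' := by
        rintro u ⟨h1, h2, h3⟩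
        refine ⟨G.inv_mem h1, fun x hx => ?_, fun x hx => ?_⟩
        · rw [hcoe, conjTranspose_conjTranspose]
          exact h3 x hx
        · rw [hcoe, conjTranspose_conjTranspose]
          exact h2 x hx }
  have hH : ∀ u, u ∈ H ↔ u ∈ G ∧ (∀ x ∈ T, (u : Mat N) * x * (u : Mat N)ᴴ ∈ T) ∧
        ∀ x ∈ T, (u : Mat N)ᴴ * x * (u : Mat N) ∈ T := fun u => Iff.rfl
  refine ⟨H, fun u hu => hu.1, ?_, ?_, ?_⟩
  · -- closed
    have hTcl : IsClosed (T : Set (Mat N)) := T.closed_of_finiteDimensional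
    have hcont : Continuous (fun u : unitaryGroup (Fin N) ℂ => (u : Mat N)) := continuous_subtype_val
    have hconts : Continuous (fun u : unitaryGroup (Fin N) ℂ => (u : Mat N)ᴴ) :=
      (continuous_star (R := Mat N)).comp hcont
    have hset : (H : Set (unitaryGroup (Fin N) ℂ)) = (G : Set (unitaryGroup (Fin N) ℂ)) ∩
        ((⋂ x ∈ T, (fun u : unitaryGroup (Fin N) ℂ => (u : Mat N) * x * (u : Mat N)ᴴ) ⁻¹' (T : Set (Mat N))) ∩
        (⋂ x ∈ T, (fun u : unitaryGroup (Fin N) ℂ => (u : Mat N)ᴴ * x * (u : Mat N)) ⁻¹' (T : Set (Mat N)))) := by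
      ext u
      simp only [SetLike.mem_coe, hH, Set.mem_inter_iff, Set.mem_iInter, Set.mem_preimage]
    rw [hset]
    refine hc.inter (IsClosed.inter ?_ ?_)
    · refine isClosed_biInter fun x _ => hTcl.preimage ?_
      exact (hcont.mul continuous_const).mul hconts
    · refine isClosed_biInter fun x _ => hTcl.preimage ?_
      exact (hconts.mul continuous_const).mul hcont
  · -- proper
    intro hHG
    apply hna
    have hInv : Inv (Gs G) T := by
      rintro _ ⟨u, hu, rfl⟩ x hx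
      have : u ∈ H := by rw [hHG]; exact hu
      exact this.2.1 x hx
    have h1 : ∀ z ∈ L, ∀ x ∈ T, br z x = 0 := by
      intro z hz x hx
      have hb : br z x ∈ T := bracket_mem hG hInv hz hx
      have h2 : br x (br z x) = 0 := hTc x hx _ hb
      have hsk : (br z x)ᴴ = -(br z x) := hRL.skew _ (hTL hb)
      apply trace_star_mul_self
      have h3 : ((br z x)ᴴ * br z x).trace = -(z * (x * br z x - br z x * x)).trace := by
        rw [hsk, Matrix.neg_mul, Matrix.trace_neg]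
        congr 1
        conv_lhs => rw [Matrix.trace_mul_comm, show br z x * br z x = (z * x - x * z) * br z x from rfl]
        rw [Matrix.sub_mul, Matrix.trace_sub, Matrix.mul_sub, Matrix.trace_sub]
        congr 1
        · rw [Matrix.mul_assoc]
        · rw [Matrix.mul_assoc, Matrix.trace_mul_comm, Matrix.mul_assoc]
      rw [h3]
      have h4 : x * br z x - br z x * x = 0 := h2
      rw [h4, Matrix.mul_zero, Matrix.trace_zero, neg_zero]
    have h2 : ∀ z ∈ L, z ∈ T := fun z hz => hTm z hz (fun x hx => br_comm_zero (h1 z hz x hx))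
    intro x hx y hy
    exact hTc x (h2 x hx) y (h2 y hy)
  · -- meets all classes
    intro g hg
    obtain ⟨T', hT', h1, h2⟩ := exists_stable hG (g := (g : Mat N)) ⟨g, hg, rfl⟩
    obtain ⟨u, hu, h3, h4⟩ := exists_conj hG hT hT'
    refine ⟨u, hu, G.mul_mem (G.mul_mem hu hg) (G.inv_mem hu), ?_, ?_⟩
    · intro x hx
      have h5 := h3 _ (h1 _ (h4 x hx))
      rw [hmul, hmul, hcoe, conjTranspose_mul, conjTranspose_mul, conjTranspose_conjTranspose]
      simpa only [Matrix.mul_assoc] using h5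
    · intro x hx
      have h5 := h3 _ (h2 _ (h4 x hx))
      rw [hmul, hmul, hcoe, conjTranspose_mul, conjTranspose_mul, conjTranspose_conjTranspose]
      simpa only [Matrix.mul_assoc] using h5

end Pool.Agent.K4H33.TIG
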