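import Pool.Agent.K4H33.TIG.Core

/-!
# Real Lie algebras of skew-Hermitian matrices
-/

set_option autoImplicit false

open Matrix

namespace Pool.Agent.K4H33.TIG

variable {n : Type} [Fintype n]

/-- a real Lie algebra of skew-Hermitian matrices -/
structure RL (L : Submodule ℝ (Matrix n n ℂ)) : Prop where
  skew : ∀ x ∈ L, xᴴ = -x
  cl : ∀ x ∈ L, ∀ y ∈ L, br x y ∈ L

section cplx

variable (L : Submodule ℝ (Matrix n n ℂ))

/-- the complexification -/
def cx : Submodule ℂ (Matrix n n ℂ) where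
  carrier := {z | ∃ x ∈ L, ∃ y ∈ L, z = x + Complex.I • y}
  zero_mem' := ⟨0, L.zero_mem, 0, L.zero_mem, by simp⟩
  add_mem' := by
    rintro _ _ ⟨x, hx, y, hy, rfl⟩ ⟨x', hx', y', hy', rfl⟩
    refine ⟨x + x', L.add_mem hx hx', y + y', L.add_mem hy hy', ?_⟩
    rw [smul_add]
    abel
  smul_mem' := by
    rintro c _ ⟨x, hx, y, hy, rfl⟩
    refine ⟨c.re • x - c.im • y, L.sub_mem (L.smul_mem _ hx) (L.smul_mem _ hy),
      c.im • x + c.re • y, L.add_mem (L.smul_mem _ hx) (L.smul_mem _ hy), ?_⟩
    ext i j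
    simp only [Matrix.smul_apply, Matrix.add_apply, Matrix.sub_apply, smul_eq_mul, Complex.real_smul]
    conv_lhs => rw [← Complex.re_add_im c]
    have := Complex.I_mul_I
    linear_combination ((c.im : ℂ) * y i j) * this

omit [Fintype n] in
lemma mem_cx {z : Matrix n n ℂ} : z ∈ cx L ↔ ∃ x ∈ L, ∃ y ∈ L, z = x + Complex.I • y := Iff.rfl

end cplx

variable [DecidableEq n]

/-- real version of `Dat.comm` -/
theorem RL.comm_of_fix {L : Submodule ℝ (Matrix n n ℂ)} (hL : RL L) {g : Matrix n n ℂ}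
    (hg : gᴴ * g = 1) (hg' : g * gᴴ = 1) (hs : ∀ x ∈ L, g * x * gᴴ ∈ L)
    (hfix : ∀ x ∈ L, g * x * gᴴ = x → ∀ y ∈ L, br x y = 0) :
    ∀ x ∈ L, ∀ y ∈ L, br x y = 0 := by
  have hbr : ∀ x y x' y' : Matrix n n ℂ, br (x + Complex.I • y) (x' + Complex.I • y') =
      (br x x' - br y y') + Complex.I • (br x y' + br y x') := by
    intro x y x' y'
    unfold br
    simp only [Matrix.add_mul, Matrix.mul_add, Matrix.smul_mul, Matrix.mul_smul, smul_smul,
      Complex.I_mul_I, smul_add, smul_sub, neg_smul, one_smul]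
    abel
  have hcj : ∀ x y : Matrix n n ℂ, g * (x + Complex.I • y) * gᴴ =
      g * x * gᴴ + Complex.I • (g * y * gᴴ) := by
    intro x y
    rw [Matrix.mul_add, Matrix.add_mul, Matrix.mul_smul, Matrix.smul_mul]
  have huniq : ∀ x ∈ L, ∀ y ∈ L, ∀ x' ∈ L, ∀ y' ∈ L, x + Complex.I • y = x' + Complex.I • y' →
      x = x' ∧ y = y' := by
    intro x hx y hy x' hx' y' hy' h
    have h2 := congrArg conjTranspose h
    rw [conjTranspose_add, conjTranspose_add, conjTranspose_smul, conjTranspose_smul,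
      hL.skew x hx, hL.skew y hy, hL.skew x' hx', hL.skew y' hy', Complex.star_def,
      Complex.conj_I, neg_smul, neg_smul, smul_neg, smul_neg, neg_neg, neg_neg] at h2
    have h3 : (2 : ℂ) • x = (2 : ℂ) • x' := by
      rw [two_smul, two_smul]
      calc x + x = (x + Complex.I • y) - (-x + Complex.I • y) := by abel
        _ = (x' + Complex.I • y') - (-x' + Complex.I • y') := by rw [h, h2]
        _ = _ := by abel
    have h4 : x = x' := smul_right_injective _ (two_ne_zero' ℂ) h3
    refine ⟨h4, ?_⟩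
    rw [h4] at h
    exact smul_right_injective _ Complex.I_ne_zero (add_left_cancel h)
  have D : Dat g (cx L) :=
    { hg := hg
      hg' := hg'
      star := by
        rintro _ ⟨x, hx, y, hy, rfl⟩
        refine ⟨-x, L.neg_mem hx, y, hy, ?_⟩
        rw [conjTranspose_add, conjTranspose_smul, hL.skew x hx, hL.skew y hy, Complex.star_def,
          Complex.conj_I, neg_smul, smul_neg, neg_neg]
      cl := by
        rintro _ ⟨x, hx, y, hy, rfl⟩ _ ⟨x', hx', y', hy', rfl⟩
        rw [hbr]
        exact ⟨_, L.sub_mem (hL.cl _ hx _ hx') (hL.cl _ hy _ hy'), _,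
          L.add_mem (hL.cl _ hx _ hy') (hL.cl _ hy _ hx'), rfl⟩
      stab := by
        rintro _ ⟨x, hx, y, hy, rfl⟩
        rw [hcj]
        exact ⟨_, hs _ hx, _, hs _ hy, rfl⟩
      fix := by
        rintro _ ⟨x, hx, y, hy, rfl⟩ h _ ⟨x', hx', y', hy', rfl⟩
        rw [hcj] at h
        obtain ⟨h1, h2⟩ := huniq _ (hs _ hx) _ (hs _ hy) _ hx _ hy h
        rw [hbr, hfix x hx h1 x' hx', hfix y hy h2 y' hy', hfix x hx h1 y' hy', hfix y hy h2 x' hx']
        simp }
  intro x hx y hy
  exact D.comm ⟨x, hx, 0, L.zero_mem, by simp⟩ ⟨y, hy, 0, L.zero_mem, by simp⟩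

omit [DecidableEq n] in
/-- adjointness of the bracket with a skew-Hermitian matrix -/
lemma trace_br {x v w : Matrix n n ℂ} (hx : xᴴ = -x) :
    ((br x v)ᴴ * w).trace = -((vᴴ) * br x w).trace := by
  unfold br
  rw [conjTranspose_sub, conjTranspose_mul, conjTranspose_mul, hx, Matrix.sub_mul, Matrix.mul_sub,
    Matrix.trace_sub, Matrix.trace_sub, Matrix.mul_neg, Matrix.neg_mul, Matrix.neg_mul, Matrix.neg_mul,
    Matrix.trace_neg, Matrix.trace_neg, Matrix.mul_assoc, Matrix.mul_assoc x, Matrix.trace_mul_comm x,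
    Matrix.mul_assoc vᴴ w x]
  ring

omit [DecidableEq n] in
/-- for commuting skew-Hermitian matrices `x`, `y`, some `x + t y` has the smallest possible
commutant -/
lemma exists_gen {x y : Matrix n n ℂ} (hx : xᴴ = -x) (hy : yᴴ = -y) (hxy : br x y = 0) :
    ∃ t : ℝ, ∀ z : Matrix n n ℂ, br (x + t • y) z = 0 → br x z = 0 ∧ br y z = 0 := by
  by_contra hcon
  push Not at hcon
  choose v hv1 hv2 using hcon
  have hlin : ∀ (t : ℝ) (z : Matrix n n ℂ), br (x + t • y) z = br x z + (t : ℂ) • br y z := by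
    intro t z
    unfold br
    rw [Matrix.add_mul, Matrix.mul_add, Matrix.smul_mul, Matrix.mul_smul, Complex.coe_smul, smul_sub]
    abel
  have hcomm : ∀ z : Matrix n n ℂ, br x (br y z) = br y (br x z) := by
    intro z
    have h1 : x * y = y * x := sub_eq_zero.1 hxy
    unfold br
    simp only [Matrix.mul_sub, Matrix.sub_mul]
    have e1 : x * (y * z) = y * (x * z) := by
      rw [← Matrix.mul_assoc, h1, Matrix.mul_assoc]
    have e2 : z * y * x = z * x * y := by
      rw [Matrix.mul_assoc, ← h1, ← Matrix.mul_assoc]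
    rw [e1, e2]
    simp only [Matrix.mul_assoc]
    abel
  have hB0 : ∀ t, br y (v t) ≠ 0 := by
    intro t h
    have h1 := hv1 t
    rw [hlin, h, smul_zero, add_zero] at h1
    exact hv2 t h1 h
  have hA : ∀ t, br x (v t) = -((t : ℂ) • br y (v t)) := by
    intro t
    have h1 := hv1 t
    rw [hlin] at h1
    exact eq_neg_of_add_eq_zero_left h1
  -- orthogonality
  have horth : ∀ (t s : ℝ), t ≠ s → ∀ a b : Matrix n n ℂ, br x a = -((t : ℂ) • br y a) →
      br x b = -((s : ℂ) • br y b) → ((br y a)ᴴ * b).trace = 0 := by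
    intro t s hts a b ha hb
    have h1 := trace_br (v := a) (w := b) hx
    rw [ha, hb, conjTranspose_neg, conjTranspose_smul, Matrix.neg_mul, Matrix.smul_mul,
      Matrix.trace_neg, Matrix.trace_smul, Matrix.mul_neg, Matrix.mul_smul, Matrix.trace_neg,
      Matrix.trace_smul, Complex.star_def, Complex.conj_ofReal, smul_eq_mul, smul_eq_mul] at h1
    have h2 := trace_br (v := a) (w := b) hy
    have h3 : ((t : ℂ) - s) * ((br y a)ᴴ * b).trace = 0 := by
      rw [h2] at h1 ⊢
      linear_combination -h1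
    rcases mul_eq_zero.1 h3 with h4 | h4
    · exfalso
      apply hts
      have := sub_eq_zero.1 h4
      exact_mod_cast this
    · exact h4
  have hlast : ∀ t s : ℝ, t ≠ s → ((br y (v t))ᴴ * br y (v s)).trace = 0 := by
    intro t s hts
    refine horth t s hts _ _ (hA t) ?_
    rw [hcomm, hA s]
    unfold br
    rw [Matrix.mul_neg, Matrix.neg_mul, Matrix.mul_smul, Matrix.smul_mul, smul_sub]
    abel
  -- linear independence
  have hli : LinearIndependent ℂ (fun t : ℝ => br y (v t)) := by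
    rw [linearIndependent_iff']
    intro s c hc t ht
    have h1 : ((br y (v t))ᴴ * ∑ i ∈ s, c i • br y (v i)).trace = 0 := by
      rw [hc, Matrix.mul_zero, Matrix.trace_zero]
    rw [Matrix.mul_sum, Matrix.trace_sum, Finset.sum_eq_single t] at h1
    · rw [Matrix.mul_smul, Matrix.trace_smul, smul_eq_mul] at h1
      rcases mul_eq_zero.1 h1 with h2 | h2
      · exact h2
      · exact absurd (trace_star_mul_self h2) (hB0 t)
    · intro b _ hbt
      rw [Matrix.mul_smul, Matrix.trace_smul, hlast t b hbt.symm, smul_zero]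
    · intro h2
      exact absurd ht h2
  have := hli.finite
  exact not_finite ℝ

omit [DecidableEq n] in
/-- a commutative space of skew-Hermitian matrices contains a matrix whose commutant is the commutant
of the whole space -/
lemma exists_regular (T : Submodule ℝ (Matrix n n ℂ)) (hT : ∀ x ∈ T, xᴴ = -x)
    (hc : ∀ x ∈ T, ∀ y ∈ T, br x y = 0) :
    ∃ x ∈ T, ∀ z : Matrix n n ℂ, br x z = 0 → ∀ y ∈ T, br y z = 0 := by
  -- the commutant of `x`
  let C : Matrix n n ℂ → Submodule ℂ (Matrix n n ℂ) := fun x =>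
    { carrier := {z | br x z = 0}
      zero_mem' := by show br x 0 = 0; unfold br; simp
      add_mem' := by
        intro a b ha hb
        show br x (a + b) = 0
        have ha' : br x a = 0 := ha
        have hb' : br x b = 0 := hb
        unfold br at *
        rw [Matrix.mul_add, Matrix.add_mul,
          show x * a + x * b - (a * x + b * x) = (x * a - a * x) + (x * b - b * x) by abel, ha', hb',
          add_zero]
      smul_mem' := by
        intro c a ha
        show br x (c • a) = 0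
        have ha' : br x a = 0 := ha
        unfold br at *
        rw [Matrix.mul_smul, Matrix.smul_mul, ← smul_sub, ha', smul_zero] }
  have hex : ∃ d : ℕ, ∃ x ∈ T, Module.finrank ℂ (C x) = d := ⟨_, 0, T.zero_mem, rfl⟩
  classical
  obtain ⟨x, hx, hd⟩ := Nat.find_spec hex
  refine ⟨x, hx, ?_⟩
  intro z hz y hy
  obtain ⟨t, ht⟩ := exists_gen (hT x hx) (hT y hy) (hc x hx y hy)
  have hmem : x + t • y ∈ T := T.add_mem hx (T.smul_mem _ hy)
  have hle : C (x + t • y) ≤ C x := fun z hz => (ht z hz).1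
  have hge : Module.finrank ℂ (C x) ≤ Module.finrank ℂ (C (x + t • y)) := by
    rw [hd]
    exact Nat.find_min' hex ⟨_, hmem, rfl⟩
  have heq : C (x + t • y) = C x := Submodule.eq_of_le_of_finrank_le hle hge
  have hz' : z ∈ C x := hz
  rw [← heq] at hz'
  exact (ht z hz').2

omit [DecidableEq n] in
lemma br_self (x : Matrix n n ℂ) : br x x = 0 := by
  unfold br
  rw [sub_self]

omit [DecidableEq n] in
lemma br_comm_zero {x y : Matrix n n ℂ} (h : br x y = 0) : br y x = 0 := by
  rw [br_anti, h, neg_zero]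

omit [DecidableEq n] in
/-- maximal commutative subspaces exist -/
lemma exists_maxab (V : Submodule ℝ (Matrix n n ℂ)) :
    ∃ T : Submodule ℝ (Matrix n n ℂ), T ≤ V ∧ (∀ x ∈ T, ∀ y ∈ T, br x y = 0) ∧
      ∀ z ∈ V, (∀ x ∈ T, br x z = 0) → z ∈ T := by
  classical
  let P : Submodule ℝ (Matrix n n ℂ) → Prop := fun T => T ≤ V ∧ (∀ x ∈ T, ∀ y ∈ T, br x y = 0)
  have hP0 : P ⊥ := by
    refine ⟨bot_le, ?_⟩
    intro x hx y _
    rw [Submodule.mem_bot] at hx
    rw [hx]
    unfold br
    simp
  obtain ⟨T, hT, hmax⟩ := WellFounded.has_min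
    (wellFounded_gt : WellFounded ((· > ·) : Submodule ℝ (Matrix n n ℂ) → _ → Prop)) {T | P T} ⟨⊥, hP0⟩
  refine ⟨T, hT.1, hT.2, ?_⟩
  intro z hz hcomm
  by_contra hzT
  have hP : P (T ⊔ Submodule.span ℝ {z}) := by
    refine ⟨sup_le hT.1 ((Submodule.span_singleton_le_iff_mem _ _).2 hz), ?_⟩
    intro x hx y hy
    obtain ⟨a, ha, b, hb, rfl⟩ := Submodule.mem_sup.1 hx
    obtain ⟨a', ha', b', hb', rfl⟩ := Submodule.mem_sup.1 hy
    obtain ⟨c, rfl⟩ := Submodule.mem_span_singleton.1 hb
    obtain ⟨c', rfl⟩ := Submodule.mem_span_singleton.1 hb'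
    have h1 := hT.2 a ha a' ha'
    have h2 := hcomm a ha
    have h3 := hcomm a' ha'
    unfold br at *
    have e : (a + c • z) * (a' + c' • z) - (a' + c' • z) * (a + c • z) =
        (a * a' - a' * a) + c' • (a * z - z * a) - c • (a' * z - z * a') := by
      simp only [Matrix.add_mul, Matrix.mul_add, Matrix.smul_mul, Matrix.mul_smul, smul_sub, smul_add]
      rw [smul_comm c c' (z * z)]
      abel
    rw [e, h1, h2, h3]
    simp
  exact hmax _ hP (lt_of_le_of_ne le_sup_left (fun h => hzT (by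
    rw [h]
    exact Submodule.mem_sup_right (Submodule.mem_span_singleton_self z))))

end Pool.Agent.K4H33.TIG
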